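import Pool.Agent.W785.QR.Stm

set_option autoImplicit false

open Set Pool.Agent.W785.QR

namespace Pool.Agent.W374.QR.Cauchy

theorem iter (D : ℕ) (q : ℕ → ℂ) (k : ℕ) (t : ℂ) :
    iteratedDeriv k (fun z : ℂ => ∑ m ∈ Finset.Icc 1 D, q m * Complex.exp (-(m * (z + 1)))) t
      = ∑ m ∈ Finset.Icc 1 D, q m * ((-(m : ℂ)) ^ k * Complex.exp (-(m * (t + 1)))) := by
  induction k generalizing t with
  | zero => simp
  | succ k ih =>
    rw [iteratedDeriv_succ]
    have h1 : iteratedDeriv k (fun z : ℂ => ∑ m ∈ Finset.Icc 1 D, q m * Complex.exp (-(m * (z + 1))))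
        = fun t => ∑ m ∈ Finset.Icc 1 D, q m * ((-(m : ℂ)) ^ k * Complex.exp (-(m * (t + 1)))) :=
      funext ih
    rw [h1]
    apply HasDerivAt.deriv
    apply HasDerivAt.fun_sum
    intro m _
    have h2 : HasDerivAt (fun z : ℂ => -((m : ℂ) * (z + 1))) (-(m : ℂ)) t := by
      have h4 := (((hasDerivAt_id' t).add_const (1 : ℂ)).const_mul (m : ℂ)).fun_neg
      rw [mul_one] at h4
      exact h4
    have h3 := ((h2.cexp.const_mul ((-(m : ℂ)) ^ k)).const_mul (q m))
    have h5 : q m * ((-(m : ℂ)) ^ (k + 1) * Complex.exp (-(m * (t + 1))))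
        = q m * ((-(m : ℂ)) ^ k * (Complex.exp (-(m * (t + 1))) * -(m : ℂ))) := by
      rw [pow_succ]
      ring
    rw [h5]
    exact h3

theorem main : S_cauchy := by
  intro D q t ρ η hρ hG x hx
  set G : ℂ → ℂ := fun z => ∑ m ∈ Finset.Icc 1 D, q m * Complex.exp (-(m * (z + 1))) with hGdef
  have hη : 0 ≤ η := (norm_nonneg _).trans (hG t (by simpa using hρ.le))
  have hdiff : Differentiable ℂ G := by
    rw [hGdef]
    fun_prop
  have hC : ∀ k : ℕ, ‖iteratedDeriv k G (t : ℂ)‖ ≤ k.factorial * η / ρ ^ k := by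
    intro k
    apply Complex.norm_iteratedDeriv_le_of_forall_mem_sphere_norm_le k hρ hdiff.diffContOnCl
    intro z hz
    apply hG z
    rw [mem_sphere_iff_norm] at hz
    exact hz.le
  have hcos : ∀ m : ℕ, HasSum (fun k : ℕ => q m * Complex.exp (-(m * ((t : ℂ) + 1))) *
      (((-(m : ℝ)) ^ k * x ^ (2 * k) / ((2 * k).factorial : ℝ) : ℝ) : ℂ))
      (q m * Complex.exp (-(m * ((t : ℂ) + 1))) * ((Real.cos (Real.sqrt m * x) : ℝ) : ℂ)) := by
    intro m
    apply HasSum.mul_left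
    have h1 := Real.hasSum_cos (Real.sqrt m * x)
    have h2 : (fun n : ℕ => (-1) ^ n * (Real.sqrt m * x) ^ (2 * n) / ((2 * n).factorial : ℝ))
        = fun k : ℕ => (-(m : ℝ)) ^ k * x ^ (2 * k) / ((2 * k).factorial : ℝ) := by
      funext k
      have h3 : (Real.sqrt m) ^ (2 * k) = (m : ℝ) ^ k := by
        rw [pow_mul, Real.sq_sqrt (Nat.cast_nonneg m)]
      rw [mul_pow, h3, ← mul_assoc, ← mul_pow, neg_one_mul]
    rw [h2] at h1
    exact_mod_cast (Complex.hasSum_ofReal.2 h1)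
  have hsum := hasSum_sum (s := Finset.Icc 1 D) (fun m _ => hcos m)
  have hterm : ∀ k : ℕ, ∑ m ∈ Finset.Icc 1 D, q m * Complex.exp (-(m * ((t : ℂ) + 1))) *
      (((-(m : ℝ)) ^ k * x ^ (2 * k) / ((2 * k).factorial : ℝ) : ℝ) : ℂ)
      = ((x ^ (2 * k) / ((2 * k).factorial : ℝ) : ℝ) : ℂ) * iteratedDeriv k G (t : ℂ) := by
    intro k
    rw [hGdef, iter, Finset.mul_sum]
    apply Finset.sum_congr rfl
    intro m _
    push_cast
    ring
  have hb : ∀ k : ℕ, ‖∑ m ∈ Finset.Icc 1 D, q m * Complex.exp (-(m * ((t : ℂ) + 1))) *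
      (((-(m : ℝ)) ^ k * x ^ (2 * k) / ((2 * k).factorial : ℝ) : ℝ) : ℂ)‖
      ≤ η * ((1 / ρ) ^ k / (k.factorial : ℝ)) := by
    intro k
    rw [hterm k, norm_mul, Complex.norm_real, Real.norm_eq_abs, abs_div, Nat.abs_cast]
    have h1 : |x ^ (2 * k)| ≤ 1 := by
      rw [abs_pow]
      exact pow_le_one₀ (abs_nonneg _) hx
    have h2 : (0 : ℝ) < ((2 * k).factorial : ℝ) := by exact_mod_cast Nat.factorial_pos _
    have h3 : (0 : ℝ) < (k.factorial : ℝ) := by exact_mod_cast Nat.factorial_pos _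
    have h4 : (k.factorial : ℝ) * k.factorial ≤ ((2 * k).factorial : ℝ) := by
      have := Nat.le_of_dvd (Nat.factorial_pos _) (Nat.factorial_mul_factorial_dvd_factorial_add k k)
      rw [two_mul]
      exact_mod_cast this
    have h5 : |x ^ (2 * k)| / ((2 * k).factorial : ℝ) ≤ 1 / ((2 * k).factorial : ℝ) := by gcongr
    calc |x ^ (2 * k)| / ((2 * k).factorial : ℝ) * ‖iteratedDeriv k G (t : ℂ)‖
        ≤ 1 / ((2 * k).factorial : ℝ) * (k.factorial * η / ρ ^ k) :=
          mul_le_mul h5 (hC k) (norm_nonneg _) (by positivity)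
      _ = η * (1 / ρ) ^ k * (k.factorial / ((2 * k).factorial : ℝ)) := by
          rw [one_div_pow]; ring
      _ ≤ η * (1 / ρ) ^ k * (1 / (k.factorial : ℝ)) := by
          apply mul_le_mul_of_nonneg_left _ (by positivity)
          rw [div_le_div_iff₀ h2 h3]
          linarith
      _ = η * ((1 / ρ) ^ k / (k.factorial : ℝ)) := by ring
  have hexp : HasSum (fun k : ℕ => η * ((1 / ρ) ^ k / (k.factorial : ℝ))) (η * Real.exp (1 / ρ)) := by
    apply HasSum.mul_left
    rw [Real.exp_eq_exp_ℝ]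
    exact NormedSpace.expSeries_div_hasSum_exp (1 / ρ)
  rw [← hsum.tsum_eq]
  exact tsum_of_norm_bounded hexp hb

end Pool.Agent.W374.QR.Cauchy
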