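import Pool.Agent.W785.QR.Stm

set_option autoImplicit false

open Set Pool.Agent.W785.QR MeasureTheory

namespace Pool.Agent.W374.QR.Cos

/-- the basis functions -/
noncomputable def bf (k : ℕ) : ℝ → ℝ := fun x => Real.cos ((2 * k + 1) * x)

noncomputable def W : Submodule ℝ (ℝ → ℝ) := Submodule.span ℝ (Set.range bf)

theorem bf_mem (k : ℕ) : bf k ∈ W := Submodule.subset_span ⟨k, rfl⟩

theorem ident (x y : ℝ) : Real.cos x ^ 2 * Real.cos y
    = 1 / 2 * Real.cos y + 1 / 4 * Real.cos (y + 2 * x) + 1 / 4 * Real.cos (y - 2 * x) := by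
  rw [Real.cos_add, Real.cos_sub, Real.cos_two_mul]
  ring

theorem step_bf (k : ℕ) : (fun x => Real.cos x ^ 2) * bf k ∈ W := by
  cases k with
  | zero =>
    have h : (fun x => Real.cos x ^ 2) * bf 0 = (3 / 4 : ℝ) • bf 0 + (1 / 4 : ℝ) • bf 1 := by
      funext x
      simp only [Pi.mul_apply, Pi.add_apply, Pi.smul_apply, smul_eq_mul, bf]
      rw [ident]
      have e1 : (2 * ((0 : ℕ) : ℝ) + 1) * x + 2 * x = (2 * ((1 : ℕ) : ℝ) + 1) * x := by
        push_cast; ring
      have e2 : (2 * ((0 : ℕ) : ℝ) + 1) * x - 2 * x = -((2 * ((0 : ℕ) : ℝ) + 1) * x) := by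
        push_cast; ring
      rw [e1, e2, Real.cos_neg]
      ring
    rw [h]
    exact W.add_mem (W.smul_mem _ (bf_mem 0)) (W.smul_mem _ (bf_mem 1))
  | succ k =>
    have h : (fun x => Real.cos x ^ 2) * bf (k + 1)
        = (1 / 2 : ℝ) • bf (k + 1) + (1 / 4 : ℝ) • bf (k + 2) + (1 / 4 : ℝ) • bf k := by
      funext x
      simp only [Pi.mul_apply, Pi.add_apply, Pi.smul_apply, smul_eq_mul, bf]
      rw [ident]
      have e1 : (2 * ((k + 1 : ℕ) : ℝ) + 1) * x + 2 * x = (2 * ((k + 2 : ℕ) : ℝ) + 1) * x := by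
        push_cast; ring
      have e2 : (2 * ((k + 1 : ℕ) : ℝ) + 1) * x - 2 * x = (2 * ((k : ℕ) : ℝ) + 1) * x := by
        push_cast; ring
      rw [e1, e2]
    rw [h]
    exact W.add_mem (W.add_mem (W.smul_mem _ (bf_mem _)) (W.smul_mem _ (bf_mem _)))
      (W.smul_mem _ (bf_mem _))

theorem step_W {f : ℝ → ℝ} (hf : f ∈ W) : (fun x => Real.cos x ^ 2) * f ∈ W := by
  unfold W at hf
  induction hf using Submodule.span_induction with
  | mem x h =>
    obtain ⟨k, rfl⟩ := h
    exact step_bf k
  | zero => rw [mul_zero]; exact W.zero_mem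
  | add x y _ _ h1 h2 => rw [mul_add]; exact W.add_mem h1 h2
  | smul a x _ h => rw [mul_smul_comm]; exact W.smul_mem _ h

theorem pow_mem (J : ℕ) : (fun x => Real.cos x ^ (2 * J + 1)) ∈ W := by
  induction J with
  | zero =>
    have : (fun x => Real.cos x ^ (2 * 0 + 1)) = bf 0 := by
      funext x
      simp [bf]
    rw [this]
    exact bf_mem 0
  | succ J ih =>
    have := step_W ih
    have e : (fun x => Real.cos x ^ (2 * (J + 1) + 1)) = (fun x => Real.cos x ^ 2) *
        fun x => Real.cos x ^ (2 * J + 1) := by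
      funext x
      simp only [Pi.mul_apply]
      rw [← pow_add]
      congr 1
      ring
    rw [e]
    exact this

theorem t_cos : S_cos := by
  intro J
  have h := pow_mem J
  unfold W at h
  rw [Finsupp.mem_span_range_iff_exists_finsupp] at h
  obtain ⟨c, hc⟩ := h
  refine ⟨c.support.sup id + 1, fun k => c k, fun x => ?_⟩
  have h1 := congrFun hc x
  rw [← h1, Finsupp.sum, Finset.sum_apply]
  simp only [Pi.smul_apply, smul_eq_mul, bf]
  apply Finset.sum_subset
  · intro i hi
    rw [Finset.mem_range]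
    exact Nat.lt_succ_of_le (Finset.le_sup (f := id) hi)
  · intro i _ hi
    rw [Finsupp.notMem_support_iff] at hi
    rw [hi, zero_mul]

/-! The Volterra operator. -/

/-- the integrand -/
noncomputable def ig (k : ℝ) (f : A) (p : KK) (s : ℝ) : ℂ :=
  ((Real.exp (-(k * (p.2 - s))) : ℝ) : ℂ) * f (p.1, projIcc (-1 : ℝ) 0 (by norm_num) s)

theorem ig_cont (k : ℝ) (f : A) : Continuous (Function.uncurry (ig k f)) := by
  unfold ig
  apply Continuous.mul
  · apply Complex.continuous_ofReal.comp
    apply Real.continuous_exp.comp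
    fun_prop
  · apply f.continuous.comp
    apply Continuous.prodMk
    · fun_prop
    · exact continuous_projIcc.comp continuous_snd

theorem ig_cont' (k : ℝ) (f : A) (p : KK) : Continuous (ig k f p) :=
  (ig_cont k f).comp (Continuous.prodMk continuous_const continuous_id)

/-- the operator on functions -/
noncomputable def TF (k : ℝ) (f : A) : A where
  toFun p := ∫ s in (-1 : ℝ)..p.2, ig k f p s
  continuous_toFun := by
    apply intervalIntegral.continuous_parametric_intervalIntegral_of_continuous (ig_cont k f)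
    fun_prop

theorem TF_apply (k : ℝ) (f : A) (p : KK) : TF k f p = ∫ s in (-1 : ℝ)..p.2, ig k f p s := rfl

theorem p2_mem (p : KK) : -1 ≤ (p.2 : ℝ) ∧ (p.2 : ℝ) ≤ 0 := p.2.2

theorem ig_add (k : ℝ) (f g : A) (p : KK) (s : ℝ) : ig k (f + g) p s = ig k f p s + ig k g p s := by
  unfold ig
  rw [ContinuousMap.add_apply, mul_add]

theorem ig_smul (k : ℝ) (c : ℂ) (f : A) (p : KK) (s : ℝ) : ig k (c • f) p s = c * ig k f p s := by
  unfold ig
  rw [ContinuousMap.smul_apply, smul_eq_mul]
  ring

theorem ig_norm (k : ℝ) (f : A) (p : KK) (s : ℝ) :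
    ‖ig k f p s‖ ≤ Real.exp (-(k * (p.2 - s))) * ‖f‖ := by
  unfold ig
  rw [norm_mul, Complex.norm_real, Real.norm_eq_abs, abs_of_pos (Real.exp_pos _)]
  exact mul_le_mul_of_nonneg_left (ContinuousMap.norm_coe_le_norm f _) (Real.exp_pos _).le

theorem mem_uIoc {p : KK} {s : ℝ} (hs : s ∈ Set.uIoc (-1 : ℝ) p.2) :
    0 ≤ (p.2 : ℝ) - s ∧ (p.2 : ℝ) - s ≤ 1 := by
  rw [Set.uIoc_of_le (p2_mem p).1] at hs
  have := (p2_mem p).2
  exact ⟨by linarith [hs.2], by linarith [hs.1]⟩

theorem TF_norm (k : ℝ) (f : A) : ‖TF k f‖ ≤ Real.exp |k| * ‖f‖ := by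
  rw [ContinuousMap.norm_le _ (by positivity)]
  intro p
  rw [TF_apply]
  have h1 : ‖∫ s in (-1 : ℝ)..p.2, ig k f p s‖ ≤ (Real.exp |k| * ‖f‖) * |(p.2 : ℝ) - (-1)| := by
    apply intervalIntegral.norm_integral_le_of_norm_le_const
    intro s hs
    obtain ⟨h2, h3⟩ := mem_uIoc hs
    refine (ig_norm k f p s).trans ?_
    apply mul_le_mul_of_nonneg_right _ (norm_nonneg _)
    apply Real.exp_le_exp.2
    have h4 : |k * (p.2 - s)| ≤ |k| := by
      rw [abs_mul, abs_of_nonneg h2]
      exact mul_le_of_le_one_right (abs_nonneg _) h3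
    exact (neg_le_abs _).trans h4
  have h2 : |(p.2 : ℝ) - (-1)| ≤ 1 := by
    obtain ⟨h3, h4⟩ := p2_mem p
    rw [abs_le]
    constructor <;> linarith
  exact h1.trans (mul_le_of_le_one_right (by positivity) h2)

/-- the operator -/
noncomputable def T (k : ℝ) : A →L[ℂ] A :=
  LinearMap.mkContinuous
    { toFun := TF k
      map_add' := by
        intro f g
        ext p
        rw [ContinuousMap.add_apply, TF_apply, TF_apply, TF_apply,
          ← intervalIntegral.integral_add ((ig_cont' k f p).intervalIntegrable _ _)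
            ((ig_cont' k g p).intervalIntegrable _ _)]
        simp only [ig_add]
      map_smul' := by
        intro c f
        ext p
        rw [RingHom.id_apply, ContinuousMap.smul_apply, TF_apply, TF_apply, smul_eq_mul,
          ← intervalIntegral.integral_const_mul]
        simp only [ig_smul] }
    (Real.exp |k|) (TF_norm k)

theorem T_apply (k : ℝ) (f : A) (p : KK) : T k f p = ∫ s in (-1 : ℝ)..p.2, ig k f p s := rfl

theorem exp_lip {x y : ℝ} (hx : 0 ≤ x) (hy : 0 ≤ y) : |Real.exp (-x) - Real.exp (-y)| ≤ |x - y| := by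
  wlog h : x ≤ y generalizing x y
  · rw [abs_sub_comm, abs_sub_comm x y]
    exact this hy hx (le_of_not_ge h)
  · have h1 : Real.exp (-y) ≤ Real.exp (-x) := Real.exp_le_exp.2 (by linarith)
    rw [abs_of_nonneg (by linarith), abs_of_nonpos (by linarith)]
    have h2 : Real.exp (-y) = Real.exp (-x) * Real.exp (-(y - x)) := by
      rw [← Real.exp_add]
      congr 1
      ring
    have h3 : 1 - (y - x) ≤ Real.exp (-(y - x)) := by
      have := Real.add_one_le_exp (-(y - x))
      linarith
    have h4 : Real.exp (-x) ≤ 1 := Real.exp_le_one_iff.2 (by linarith)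
    have h5 := Real.exp_pos (-x)
    rw [h2]
    nlinarith

theorem t_T : S_T := by
  refine ⟨T, ?_, ?_, ?_, ?_⟩
  · intro k f p
    exact T_apply k f p
  · intro k hk f
    rw [ContinuousMap.norm_le _ (by positivity)]
    intro p
    rw [T_apply]
    obtain ⟨h3, h4⟩ := p2_mem p
    have hg : IntervalIntegrable (fun s => Real.exp (-(k * (p.2 - s))) * ‖f‖) volume (-1) p.2 := by
      apply Continuous.intervalIntegrable
      fun_prop
    have h1 : ‖∫ s in (-1 : ℝ)..p.2, ig k f p s‖
        ≤ ∫ s in (-1 : ℝ)..p.2, Real.exp (-(k * (p.2 - s))) * ‖f‖ :=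
      intervalIntegral.norm_integral_le_of_norm_le h3
        (Filter.Eventually.of_forall (fun s _ => ig_norm k f p s)) hg
    have h2 : ∫ s in (-1 : ℝ)..p.2, Real.exp (-(k * (p.2 - s)))
        = Real.exp (-(k * (p.2 - p.2))) / k - Real.exp (-(k * (p.2 - (-1)))) / k := by
      apply intervalIntegral.integral_eq_sub_of_hasDerivAt
        (f := fun s => Real.exp (-(k * (p.2 - s))) / k)
      · intro s _
        have h5 : HasDerivAt (fun s : ℝ => -(k * (p.2 - s))) k s := by
          have h6 := (((hasDerivAt_id' s).const_sub (p.2 : ℝ)).const_mul k).fun_neg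
          rw [mul_neg, mul_one, neg_neg] at h6
          exact h6
        have h7 := h5.exp.div_const k
        rwa [mul_div_cancel_right₀ _ hk.ne'] at h7
      · apply Continuous.intervalIntegrable
        fun_prop
    rw [intervalIntegral.integral_mul_const, h2, sub_self, mul_zero, neg_zero, Real.exp_zero] at h1
    refine h1.trans ?_
    apply mul_le_mul_of_nonneg_right _ (norm_nonneg _)
    have h8 : 0 ≤ Real.exp (-(k * (p.2 - (-1)))) / k := by positivity
    rw [one_div]
    linarith
  · intro k hk f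
    rw [ContinuousMap.norm_le _ (by positivity)]
    intro p
    rw [T_apply]
    have h1 : ‖∫ s in (-1 : ℝ)..p.2, ig k f p s‖ ≤ ‖f‖ * |(p.2 : ℝ) - (-1)| := by
      apply intervalIntegral.norm_integral_le_of_norm_le_const
      intro s hs
      obtain ⟨h2, h3⟩ := mem_uIoc hs
      refine (ig_norm k f p s).trans ?_
      apply mul_le_of_le_one_left (norm_nonneg _)
      rw [Real.exp_le_one_iff]
      have := mul_nonneg hk h2
      linarith
    have h2 : |(p.2 : ℝ) - (-1)| ≤ 1 := by
      obtain ⟨h3, h4⟩ := p2_mem p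
      rw [abs_le]
      constructor <;> linarith
    exact h1.trans (mul_le_of_le_one_right (by positivity) h2)
  · intro k k' hk hk' f
    rw [ContinuousMap.norm_le _ (by positivity)]
    intro p
    rw [ContinuousMap.sub_apply, T_apply, T_apply,
      ← intervalIntegral.integral_sub ((ig_cont' k f p).intervalIntegrable _ _)
            ((ig_cont' k' f p).intervalIntegrable _ _)]
    have h1 : ‖∫ s in (-1 : ℝ)..p.2, (ig k f p s - ig k' f p s)‖
        ≤ (|k - k'| * ‖f‖) * |(p.2 : ℝ) - (-1)| := by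
      apply intervalIntegral.norm_integral_le_of_norm_le_const
      intro s hs
      obtain ⟨h2, h3⟩ := mem_uIoc hs
      unfold ig
      rw [← sub_mul, norm_mul, ← Complex.ofReal_sub, Complex.norm_real, Real.norm_eq_abs]
      apply mul_le_mul _ (ContinuousMap.norm_coe_le_norm f _) (norm_nonneg _) (abs_nonneg _)
      refine (exp_lip (mul_nonneg hk h2) (mul_nonneg hk' h2)).trans ?_
      rw [← sub_mul, abs_mul, abs_of_nonneg h2]
      exact mul_le_of_le_one_right (abs_nonneg _) h3
    have h2 : |(p.2 : ℝ) - (-1)| ≤ 1 := by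
      obtain ⟨h3, h4⟩ := p2_mem p
      rw [abs_le]
      constructor <;> linarith
    exact h1.trans (mul_le_of_le_one_right (by positivity) h2)

theorem main : S_cos ∧ S_T := ⟨t_cos, t_T⟩

end Pool.Agent.W374.QR.Cos
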