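import Pool.Agent.W374.QR.DatBase

set_option autoImplicit false

namespace Pool.Agent.W374.QR.Dat1

theorem main : Pool.Agent.W785.QR.S_dat1 := Pool.Agent.W374.QR.Dat.t_dat1

end Pool.Agent.W374.QR.Dat1
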