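import Pool.Agent.W374.QR.DatBase

set_option autoImplicit false

open Set Pool.Agent.W785.QR MeasureTheory
open scoped RealInnerProductSpace

namespace Pool.Agent.W374.QR.Dat3

open Pool.Agent.W374.QR.Dat

/-- the function which is averaged -/
noncomputable def hh (t : ℝ) (x : E) (j : Fin 3) (ξ : E) : ℂ :=
  Complex.exp ((2 * Real.pi * ⟪ξ, x⟫ : ℝ) * Complex.I) *
    ((Real.exp (-(4 * Real.pi ^ 2 * (t + 1) * ‖ξ‖ ^ 2)) *
      ((if j = 2 then 1 else 0) - ξ j * ξ 2 / ‖ξ‖ ^ 2) : ℝ) : ℂ)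

/-- the limit value at the frequency `z` -/
noncomputable def h0 (t : ℝ) (x : E) (j : Fin 3) (z : E) : ℂ :=
  Complex.exp ((2 * Real.pi * ⟪z, x⟫ : ℝ) * Complex.I) *
    ((Real.exp (-(4 * Real.pi ^ 2 * (t + 1) * ‖z‖ ^ 2)) * (if j = 2 then 1 else 0) : ℝ) : ℂ)

theorem exp_I_sub (a b : ℝ) :
    ‖Complex.exp ((a : ℝ) * Complex.I) - Complex.exp ((b : ℝ) * Complex.I)‖ ≤ |a - b| := by
  have h1 : Complex.exp ((a : ℝ) * Complex.I) - Complex.exp ((b : ℝ) * Complex.I)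
      = Complex.exp ((b : ℝ) * Complex.I) * (Complex.exp (Complex.I * ((a - b : ℝ) : ℂ)) - 1) := by
    rw [mul_sub, mul_one, ← Complex.exp_add]
    congr 2
    push_cast
    ring
  rw [h1, norm_mul, Complex.norm_exp_ofReal_mul_I, one_mul]
  have := Real.norm_exp_I_mul_ofReal_sub_one_le (x := a - b)
  rwa [Real.norm_eq_abs] at this

theorem exp_neg_sub {a b : ℝ} (ha : 0 ≤ a) (hb : 0 ≤ b) :
    |Real.exp (-a) - Real.exp (-b)| ≤ |a - b| := by
  wlog h : a ≤ b generalizing a b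
  · rw [abs_sub_comm, abs_sub_comm a b]
    exact this hb ha (le_of_not_ge h)
  · have h1 : Real.exp (-b) ≤ Real.exp (-a) := Real.exp_le_exp.2 (by linarith)
    rw [abs_of_nonneg (by linarith), abs_of_nonpos (by linarith)]
    have h2 : Real.exp (-b) = Real.exp (-a) * Real.exp (-(b - a)) := by
      rw [← Real.exp_add]
      congr 1
      ring
    have h3 : 1 - (b - a) ≤ Real.exp (-(b - a)) := by
      have := Real.add_one_le_exp (-(b - a))
      linarith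
    have h4 : Real.exp (-a) ≤ 1 := Real.exp_le_one_iff.2 (by linarith)
    have h5 := Real.exp_pos (-a)
    rw [h2]
    nlinarith

theorem hh_close {ε : ℝ} (hε1 : ε ≤ 1 / 100) {D m : ℕ} (hm : m ∈ Finset.Icc 1 D) {ξ z : E}
    (hz : z = zeta m ∨ z = -zeta m) (h : ‖ξ - z‖ < ε) {t : ℝ} (ht : t ∈ Icc (-1 : ℝ) 0)
    {x : E} (hx : ‖x‖ ≤ 1) (j : Fin 3) :
    ‖hh t x j ξ - h0 t x j z‖ ≤ (4 * Real.pi + 16 * Real.pi ^ 2 * (D + 1) + 10) * ε := by
  obtain ⟨n1, _, n3, n4⟩ := near hε1 hm hz h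
  have hε0 : 0 < ε := lt_of_le_of_lt (norm_nonneg _) h
  have hzn : ‖z‖ = ‖zeta m‖ := by
    rcases hz with rfl | rfl
    · rfl
    · rw [norm_neg]
  have hzn' : ‖z‖ ≤ D + 1 := by
    rw [hzn]
    have := zeta_norm_le (Finset.mem_Icc.1 hm).2
    linarith
  set a : ℂ := Complex.exp ((2 * Real.pi * ⟪ξ, x⟫ : ℝ) * Complex.I) with ha
  set a0 : ℂ := Complex.exp ((2 * Real.pi * ⟪z, x⟫ : ℝ) * Complex.I) with ha0
  set b : ℝ := Real.exp (-(4 * Real.pi ^ 2 * (t + 1) * ‖ξ‖ ^ 2)) with hb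
  set b0 : ℝ := Real.exp (-(4 * Real.pi ^ 2 * (t + 1) * ‖z‖ ^ 2)) with hb0
  set δ : ℝ := (if j = 2 then 1 else 0) with hδ
  set fr : ℝ := ξ j * ξ 2 / ‖ξ‖ ^ 2 with hfr
  have ht1 : 0 ≤ t + 1 := by linarith [ht.1]
  have ht2 : t + 1 ≤ 1 := by linarith [ht.2]
  have e1 : hh t x j ξ = a * ((b * (δ - fr) : ℝ) : ℂ) := rfl
  have e2 : h0 t x j z = a0 * ((b0 * δ : ℝ) : ℂ) := rfl
  have hana : ‖a - a0‖ ≤ 2 * Real.pi * ε := by
    rw [ha, ha0]
    refine (exp_I_sub _ _).trans ?_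
    rw [← mul_sub, ← inner_sub_left, abs_mul, abs_of_pos (by positivity : 0 < 2 * Real.pi)]
    apply mul_le_mul_of_nonneg_left _ (by positivity)
    refine (abs_real_inner_le_norm _ _).trans ?_
    calc ‖ξ - z‖ * ‖x‖ ≤ ε * 1 := mul_le_mul h.le hx (norm_nonneg _) hε0.le
      _ = ε := mul_one _
  have hna0 : ‖a0‖ = 1 := by rw [ha0, Complex.norm_exp_ofReal_mul_I]
  have hb1 : |b| ≤ 1 := by
    rw [hb, abs_of_pos (Real.exp_pos _), Real.exp_le_one_iff]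
    have : 0 ≤ 4 * Real.pi ^ 2 * (t + 1) * ‖ξ‖ ^ 2 := by positivity
    linarith
  have hb01 : |b0| ≤ 1 := by
    rw [hb0, abs_of_pos (Real.exp_pos _), Real.exp_le_one_iff]
    have : 0 ≤ 4 * Real.pi ^ 2 * (t + 1) * ‖z‖ ^ 2 := by positivity
    linarith
  have hδ1 : |δ| ≤ 1 := by
    rw [hδ]
    split_ifs <;> simp
  have hfr1 : |fr| ≤ 1 := frac_le ξ j 2
  have hfr2 : |fr| ≤ 10 * ε := frac_small j n1 n3
  have hbb : |b - b0| ≤ 8 * Real.pi ^ 2 * (D + 1) * ε := by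
    rw [hb, hb0]
    refine (exp_neg_sub (by positivity) (by positivity)).trans ?_
    rw [← mul_sub, abs_mul, abs_of_nonneg (by positivity)]
    have h2 : |‖ξ‖ ^ 2 - ‖z‖ ^ 2| ≤ ε * (2 * (D + 1)) := by
      have e : ‖ξ‖ ^ 2 - ‖z‖ ^ 2 = (‖ξ‖ - ‖z‖) * (‖ξ‖ + ‖z‖) := by ring
      rw [e, abs_mul]
      apply mul_le_mul
      · exact (abs_norm_sub_norm_le ξ z).trans h.le
      · rw [abs_of_nonneg (by positivity)]
        linarith
      · exact abs_nonneg _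
      · exact hε0.le
    calc 4 * Real.pi ^ 2 * (t + 1) * |‖ξ‖ ^ 2 - ‖z‖ ^ 2|
        ≤ 4 * Real.pi ^ 2 * 1 * (ε * (2 * (D + 1))) := by
          apply mul_le_mul _ h2 (abs_nonneg _) (by positivity)
          apply mul_le_mul_of_nonneg_left ht2 (by positivity)
      _ = 8 * Real.pi ^ 2 * (D + 1) * ε := by ring
  have e3 : hh t x j ξ - h0 t x j z = (a - a0) * ((b * (δ - fr) : ℝ) : ℂ)
      + a0 * (((b - b0) * (δ - fr) - b0 * fr : ℝ) : ℂ) := by
    rw [e1, e2]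
    push_cast
    ring
  rw [e3]
  refine (norm_add_le _ _).trans ?_
  rw [norm_mul, norm_mul, hna0, one_mul, Complex.norm_real, Complex.norm_real, Real.norm_eq_abs,
    Real.norm_eq_abs]
  have hdf : |δ - fr| ≤ 2 := (abs_sub _ _).trans (by linarith)
  have i1 : ‖a - a0‖ * |b * (δ - fr)| ≤ (2 * Real.pi * ε) * 2 := by
    apply mul_le_mul hana _ (abs_nonneg _) (by positivity)
    rw [abs_mul]
    calc |b| * |δ - fr| ≤ 1 * 2 := mul_le_mul hb1 hdf (abs_nonneg _) (by norm_num)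
      _ = 2 := by norm_num
  have i2 : |(b - b0) * (δ - fr) - b0 * fr| ≤ (8 * Real.pi ^ 2 * (D + 1) * ε) * 2 + 1 * (10 * ε) := by
    refine (abs_sub _ _).trans ?_
    rw [abs_mul, abs_mul]
    exact add_le_add (mul_le_mul hbb hdf (abs_nonneg _) (by positivity))
      (mul_le_mul hb01 hfr2 (abs_nonneg _) (by norm_num))
  calc ‖a - a0‖ * |b * (δ - fr)| + |(b - b0) * (δ - fr) - b0 * fr|
      ≤ (2 * Real.pi * ε) * 2 + ((8 * Real.pi ^ 2 * (D + 1) * ε) * 2 + 1 * (10 * ε)) :=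
        add_le_add i1 i2
    _ = _ := by ring

theorem hh_bdd {t : ℝ} (ht : t ∈ Icc (-1 : ℝ) 0) (x : E) (j : Fin 3) (ξ : E) :
    ‖hh t x j ξ‖ ≤ 2 := by
  unfold hh
  rw [norm_mul, Complex.norm_exp_ofReal_mul_I, one_mul, Complex.norm_real, Real.norm_eq_abs,
    abs_mul]
  have ht1 : 0 ≤ t + 1 := by linarith [ht.1]
  have h1 : |Real.exp (-(4 * Real.pi ^ 2 * (t + 1) * ‖ξ‖ ^ 2))| ≤ 1 := by
    rw [abs_of_pos (Real.exp_pos _), Real.exp_le_one_iff]
    have : 0 ≤ 4 * Real.pi ^ 2 * (t + 1) * ‖ξ‖ ^ 2 := by positivity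
    linarith
  have h2 : |(if j = 2 then (1 : ℝ) else 0) - ξ j * ξ 2 / ‖ξ‖ ^ 2| ≤ 2 := by
    refine (abs_sub _ _).trans ?_
    have h3 : |(if j = 2 then (1 : ℝ) else 0)| ≤ 1 := by
      split_ifs <;> simp
    have h4 := frac_le ξ j 2
    linarith
  calc |Real.exp (-(4 * Real.pi ^ 2 * (t + 1) * ‖ξ‖ ^ 2))| *
      |(if j = 2 then (1 : ℝ) else 0) - ξ j * ξ 2 / ‖ξ‖ ^ 2| ≤ 1 * 2 :=
        mul_le_mul h1 h2 (abs_nonneg _) (by norm_num)
    _ = 2 := by norm_num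

theorem hh_meas (t : ℝ) (x : E) (j : Fin 3) : Measurable (hh t x j) := by
  unfold hh
  apply Measurable.mul
  · exact (by fun_prop : Continuous fun ξ : E =>
      Complex.exp ((2 * Real.pi * ⟪ξ, x⟫ : ℝ) * Complex.I)).measurable
  · apply Complex.measurable_ofReal.comp
    apply Measurable.mul
    · exact (by fun_prop : Continuous fun ξ : E =>
        Real.exp (-(4 * Real.pi ^ 2 * (t + 1) * ‖ξ‖ ^ 2))).measurable
    · apply Measurable.sub measurable_const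
      apply Measurable.div
      · exact (by fun_prop : Continuous fun ξ : E => ξ j * ξ 2).measurable
      · exact (by fun_prop : Continuous fun ξ : E => ‖ξ‖ ^ 2).measurable

/-- integrability of the products -/
theorem prod_int {t : ℝ} (ht : t ∈ Icc (-1 : ℝ) 0) (x : E) (j : Fin 3) (ε : ℝ) (z : E) :
    Integrable (fun ξ : E => ((phi ε (ξ - z) : ℝ) : ℂ) * hh t x j ξ) := by
  apply Integrable.mul_bdd (c := 2)
  · exact (((phi_int ε).comp_sub_right z)).ofReal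
  · exact (hh_meas t x j).aestronglyMeasurable
  · exact Filter.Eventually.of_forall (hh_bdd ht x j)

theorem avg {ε : ℝ} (hε0 : 0 < ε) (hε1 : ε ≤ 1 / 100) {D m : ℕ} (hm : m ∈ Finset.Icc 1 D) {z : E}
    (hz : z = zeta m ∨ z = -zeta m) {t : ℝ} (ht : t ∈ Icc (-1 : ℝ) 0)
    {x : E} (hx : ‖x‖ ≤ 1) (j : Fin 3) :
    ‖(∫ ξ : E, ((phi ε (ξ - z) : ℝ) : ℂ) * hh t x j ξ) - h0 t x j z‖
      ≤ (4 * Real.pi + 16 * Real.pi ^ 2 * (D + 1) + 10) * ε := by
  set K : ℝ := (4 * Real.pi + 16 * Real.pi ^ 2 * (D + 1) + 10) * ε with hK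
  have hone : ∫ ξ : E, phi ε (ξ - z) = 1 := by
    rw [integral_sub_right_eq_self (phi ε), phi_integral hε0]
  have hint : Integrable (fun ξ : E => phi ε (ξ - z)) := (phi_int ε).comp_sub_right z
  have h1 : h0 t x j z = ∫ ξ : E, ((phi ε (ξ - z) : ℝ) : ℂ) * h0 t x j z := by
    rw [integral_mul_const, integral_complex_ofReal, hone]
    simp
  have hintC : Integrable (fun ξ : E => ((phi ε (ξ - z) : ℝ) : ℂ)) := hint.ofReal
  rw [h1, ← integral_sub (prod_int ht x j ε z) (hintC.mul_const _)]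
  have h2 : ∫ ξ : E, phi ε (ξ - z) * K = K := by
    rw [integral_mul_const, hone, one_mul]
  rw [← h2]
  apply norm_integral_le_of_norm_le (hint.mul_const K)
  apply Filter.Eventually.of_forall
  intro ξ
  rw [← mul_sub, norm_mul, Complex.norm_real, Real.norm_eq_abs, abs_of_nonneg (phi_nonneg _ _)]
  by_cases hp : phi ε (ξ - z) = 0
  · rw [hp]; simp
  · exact mul_le_mul_of_nonneg_left (hh_close hε1 hm hz (phi_ne hp) ht hx j) (phi_nonneg _ _)

theorem inner_zeta (m : ℕ) (x : E) : 2 * Real.pi * ⟪zeta m, x⟫ = Real.sqrt m * x 0 := by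
  have h : ⟪zeta m, x⟫ = Real.sqrt m / (2 * Real.pi) * x 0 := by
    rw [PiLp.inner_apply, Fin.sum_univ_three]
    unfold zeta
    simp
    ring
  rw [h]
  have := Real.pi_ne_zero
  field_simp

theorem h0_sum (t : ℝ) (x : E) (j : Fin 3) (m : ℕ) :
    h0 t x j (zeta m) + h0 t x j (-zeta m) = ((2 * (Real.exp (-(m * (t + 1))) *
      Real.cos (Real.sqrt m * x 0) * (if j = 2 then 1 else 0)) : ℝ) : ℂ) := by
  unfold h0
  have e1 : 4 * Real.pi ^ 2 * (t + 1) * ‖zeta m‖ ^ 2 = m * (t + 1) := by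
    rw [zeta_norm_sq]
    have := Real.pi_ne_zero
    field_simp
  rw [norm_neg, e1, inner_neg_left, mul_neg, inner_zeta, ← add_mul]
  have e2 : Complex.exp (((Real.sqrt m * x 0 : ℝ) : ℂ) * Complex.I) +
      Complex.exp (((-(Real.sqrt m * x 0) : ℝ) : ℂ) * Complex.I)
      = 2 * ((Real.cos (Real.sqrt m * x 0) : ℝ) : ℂ) := by
    rw [Complex.ofReal_cos, Complex.cos]
    push_cast
    ring
  rw [e2]
  push_cast
  ring

theorem Phi_eq {D : ℕ} {q : ℕ → ℝ} {ε c t : ℝ} (ht : t ∈ Icc (-1 : ℝ) 0) (x : E) (j : Fin 3) :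
    Phi (heat c (dat D q ε) j) t x = ∑ m ∈ Finset.Icc 1 D, ((c * (q m / 2) : ℝ) : ℂ) *
      ((∫ ξ : E, ((phi ε (ξ - zeta m) : ℝ) : ℂ) * hh t x j ξ) +
        ∫ ξ : E, ((phi ε (ξ - -zeta m) : ℝ) : ℂ) * hh t x j ξ) := by
  unfold Phi
  rw [Real.fourierInv_eq']
  have h1 : ∀ ξ : E, Complex.exp ((↑(2 * Real.pi * ⟪ξ, x⟫) * Complex.I)) •
      heat c (dat D q ε) j t ξ = ∑ m ∈ Finset.Icc 1 D, (((c * (q m / 2) : ℝ) : ℂ) *
        ((((phi ε (ξ - zeta m) : ℝ) : ℂ) * hh t x j ξ) +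
        ((phi ε (ξ - -zeta m) : ℝ) : ℂ) * hh t x j ξ)) := by
    intro ξ
    have h2 : ∑ m ∈ Finset.Icc 1 D, (((c * (q m / 2) : ℝ) : ℂ) *
        ((((phi ε (ξ - zeta m) : ℝ) : ℂ) * hh t x j ξ) +
        ((phi ε (ξ - -zeta m) : ℝ) : ℂ) * hh t x j ξ))
        = ((c * bumps D q ε ξ : ℝ) : ℂ) * hh t x j ξ := by
      unfold bumps
      rw [Finset.mul_sum, Complex.ofReal_sum, Finset.sum_mul]
      apply Finset.sum_congr rfl
      intro m _
      rw [sub_neg_eq_add]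
      push_cast
      ring
    rw [h2]
    unfold heat dat hh
    rw [smul_eq_mul]
    push_cast
    ring
  simp only [h1]
  rw [integral_finsetSum]
  · apply Finset.sum_congr rfl
    intro m _
    rw [integral_const_mul, integral_add (prod_int ht x j ε _) (prod_int ht x j ε _)]
  · intro m _
    exact ((prod_int ht x j ε _).add (prod_int ht x j ε _)).const_mul _

theorem main : S_dat3 := by
  intro D q
  set K : ℝ := 4 * Real.pi + 16 * Real.pi ^ 2 * (D + 1) + 10 with hK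
  have hKpos : 0 < K := by positivity
  refine ⟨(∑ m ∈ Finset.Icc 1 D, |q m|) * K + 1, by positivity, fun ε hε0 hε1 => ?_⟩
  intro c hc t ht x hx j
  rw [Phi_eq ht x j]
  have htarget : (if j = 2 then ((c * lin D q (x 0) t : ℝ) : ℂ) else 0)
      = ∑ m ∈ Finset.Icc 1 D, ((c * (q m / 2) : ℝ) : ℂ) *
        (h0 t x j (zeta m) + h0 t x j (-zeta m)) := by
    simp only [h0_sum]
    by_cases hj : j = 2
    · simp only [hj, if_true]
      unfold lin
      rw [Finset.mul_sum, Complex.ofReal_sum]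
      apply Finset.sum_congr rfl
      intro m _
      push_cast
      ring
    · simp only [hj, if_false, mul_zero, Complex.ofReal_zero, Finset.sum_const_zero]
  rw [htarget, ← Finset.sum_sub_distrib]
  refine (norm_sum_le _ _).trans ?_
  have hterm : ∀ m ∈ Finset.Icc 1 D, ‖((c * (q m / 2) : ℝ) : ℂ) *
      ((∫ ξ : E, ((phi ε (ξ - zeta m) : ℝ) : ℂ) * hh t x j ξ) +
        ∫ ξ : E, ((phi ε (ξ - -zeta m) : ℝ) : ℂ) * hh t x j ξ) -
      ((c * (q m / 2) : ℝ) : ℂ) * (h0 t x j (zeta m) + h0 t x j (-zeta m))‖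
      ≤ |q m| * (K * ε) := by
    intro m hm
    rw [← mul_sub, norm_mul, Complex.norm_real, Real.norm_eq_abs, add_sub_add_comm]
    have h1 := avg hε0 hε1 hm (Or.inl rfl) ht hx j
    have h2 := avg hε0 hε1 hm (Or.inr rfl) (z := -zeta m) ht hx j
    have h3 : |c * (q m / 2)| ≤ |q m| / 2 := by
      rw [abs_mul, abs_of_nonneg hc.1, abs_div, abs_of_pos (two_pos : (0 : ℝ) < 2)]
      exact mul_le_of_le_one_left (by positivity) hc.2
    calc |c * (q m / 2)| * ‖((∫ ξ : E, ((phi ε (ξ - zeta m) : ℝ) : ℂ) * hh t x j ξ)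
          - h0 t x j (zeta m)) + ((∫ ξ : E, ((phi ε (ξ - -zeta m) : ℝ) : ℂ) * hh t x j ξ)
          - h0 t x j (-zeta m))‖ ≤ (|q m| / 2) * (K * ε + K * ε) :=
          mul_le_mul h3 ((norm_add_le _ _).trans (add_le_add h1 h2)) (norm_nonneg _) (by positivity)
      _ = |q m| * (K * ε) := by ring
  refine (Finset.sum_le_sum hterm).trans ?_
  rw [← Finset.sum_mul]
  nlinarith

end Pool.Agent.W374.QR.Dat3
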