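import Pool.Agent.W785.QR.Stm

set_option autoImplicit false

open Set Pool.Agent.W785.QR

namespace Pool.Agent.W374.QR.Jump

/-- the smooth step polynomial -/
def p (s : ℂ) : ℂ := 3 * s ^ 2 - 2 * s ^ 3

theorem p_small {s : ℂ} {δ : ℝ} (h : ‖s‖ ≤ δ) (hδ : δ ≤ 0.272) : ‖p s‖ ≤ 0.97 * δ := by
  have h0 : 0 ≤ ‖s‖ := norm_nonneg s
  have h1 : p s = s ^ 2 * (3 - 2 * s) := by unfold p; ring
  have h2 : ‖(3 : ℂ) - 2 * s‖ ≤ 3 + 2 * δ := by
    refine (norm_sub_le _ _).trans ?_
    rw [norm_mul]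
    norm_num
    linarith
  rw [h1, norm_mul, norm_pow]
  have h3 : ‖s‖ ^ 2 * ‖(3 : ℂ) - 2 * s‖ ≤ δ ^ 2 * (3 + 2 * δ) :=
    mul_le_mul (pow_le_pow_left₀ h0 h 2) h2 (norm_nonneg _) (by positivity)
  have h4 : 0 ≤ δ := h0.trans h
  have h5 : δ * (3 + 2 * δ) ≤ 0.97 := by
    have : δ * (3 + 2 * δ) ≤ 0.272 * (3 + 2 * 0.272) :=
      mul_le_mul hδ (by linarith) (by linarith) (by norm_num)
    norm_num at this ⊢
    linarith
  have h6 : δ ^ 2 * (3 + 2 * δ) = δ * (δ * (3 + 2 * δ)) := by ring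
  rw [h6] at h3
  have h7 : δ * (δ * (3 + 2 * δ)) ≤ δ * 0.97 := mul_le_mul_of_nonneg_left h5 h4
  linarith

theorem p_one {s : ℂ} : 1 - p s = p (1 - s) := by unfold p; ring

theorem iter_small {s : ℂ} (h : ‖s‖ ≤ 0.272) (n : ℕ) : ‖p^[n] s‖ ≤ 0.272 * 0.97 ^ n := by
  induction n with
  | zero => simpa using h
  | succ n ih =>
    rw [Function.iterate_succ_apply']
    have h1 : (0.272 : ℝ) * 0.97 ^ n ≤ 0.272 := by
      have : (0.97 : ℝ) ^ n ≤ 1 := pow_le_one₀ (by norm_num) (by norm_num)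
      linarith
    have := p_small ih h1
    rw [pow_succ]
    linarith

theorem iter_one (s : ℂ) (n : ℕ) : 1 - p^[n] s = p^[n] (1 - s) := by
  induction n with
  | zero => rfl
  | succ n ih =>
    rw [Function.iterate_succ_apply', Function.iterate_succ_apply', p_one, ih]

theorem exp_two : Real.exp (-2) ≤ 0.136 := by
  have h1 : Real.exp (-2) = Real.exp (-1) * Real.exp (-1) := by
    rw [← Real.exp_add]; norm_num
  have h2 := Real.exp_neg_one_lt_d9
  have h3 := Real.exp_pos (-1)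
  rw [h1]
  have h4 : Real.exp (-1) * Real.exp (-1) ≤ 0.3678794412 * 0.3678794412 :=
    mul_le_mul h2.le h2.le h3.le (by norm_num)
  norm_num at h4 ⊢
  linarith

theorem main : S_jump := by
  intro a d η hd hη
  set θ0 : ℂ → ℂ := fun z => Complex.exp (-Complex.exp (-((2 / d : ℝ) : ℂ) * (z - a))) with hθ0
  have hdiff0 : Differentiable ℂ θ0 := by
    rw [hθ0]
    fun_prop
  have hp : Differentiable ℂ p := by
    unfold p
    fun_prop
  obtain ⟨n, hn⟩ : ∃ n : ℕ, (0.272 : ℝ) * 0.97 ^ n ≤ η := by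
    obtain ⟨n, hn⟩ := exists_pow_lt_of_lt_one hη (y := (0.97 : ℝ)) (by norm_num)
    refine ⟨n, ?_⟩
    have : (0 : ℝ) ≤ 0.97 ^ n := by positivity
    linarith
  have hre : ∀ z : ℂ, (-((2 / d : ℝ) : ℂ) * (z - a)).re = (2 / d) * (a - z.re) := by
    intro z
    rw [neg_mul, Complex.neg_re, Complex.re_ofReal_mul, Complex.sub_re, Complex.ofReal_re]
    ring
  have him : ∀ z : ℂ, (-((2 / d : ℝ) : ℂ) * (z - a)).im = -((2 / d) * z.im) := by
    intro z
    rw [neg_mul, Complex.neg_im, Complex.im_ofReal_mul, Complex.sub_im, Complex.ofReal_im, sub_zero]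
  refine ⟨p^[n] ∘ θ0, (hp.iterate n).comp hdiff0, ?_, ?_⟩
  · intro z h1 h2
    refine (iter_small ?_ n).trans hn
    rw [hθ0]
    simp only
    rw [Complex.norm_exp, Complex.neg_re, Complex.exp_re, hre, him, Real.cos_neg]
    have hX : 2 ≤ (2 / d) * (a - z.re) := by
      have : (2 / d) * d ≤ (2 / d) * (a - z.re) :=
        mul_le_mul_of_nonneg_left (by linarith) (by positivity)
      rwa [div_mul_cancel₀ _ hd.ne'] at this
    have hY : |2 / d * z.im| ≤ 1 := by
      rw [abs_mul, abs_of_pos (by positivity)]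
      have : (2 / d) * |z.im| ≤ (2 / d) * (d / 2) := mul_le_mul_of_nonneg_left h2 (by positivity)
      have e : (2 / d) * (d / 2) = 1 := by field_simp
      rwa [e] at this
    have hcos : (1 / 2 : ℝ) ≤ Real.cos (2 / d * z.im) := by
      have h3 : 1 - (2 / d * z.im) ^ 2 / 2 ≤ Real.cos (2 / d * z.im) :=
        Real.one_sub_sq_div_two_le_cos
      have h4 : (2 / d * z.im) ^ 2 ≤ 1 := by
        rw [← sq_abs]
        exact pow_le_one₀ (abs_nonneg _) hY
      linarith
    have hexp : (4 : ℝ) ≤ Real.exp ((2 / d) * (a - z.re)) := by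
      have h3 : Real.exp 2 ≤ Real.exp ((2 / d) * (a - z.re)) := Real.exp_le_exp.2 hX
      have h4 : Real.exp 2 = Real.exp 1 * Real.exp 1 := by rw [← Real.exp_add]; norm_num
      have h5 := Real.exp_one_gt_d9
      have h6 : (2 : ℝ) * 2 ≤ Real.exp 1 * Real.exp 1 :=
        mul_le_mul (by linarith) (by linarith) (by norm_num) (by positivity)
      linarith
    have hprod : (4 : ℝ) * (1 / 2) ≤ Real.exp ((2 / d) * (a - z.re)) * Real.cos (2 / d * z.im) :=
      mul_le_mul hexp hcos (by norm_num) (by positivity)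
    have h7 : Real.exp (-(Real.exp ((2 / d) * (a - z.re)) * Real.cos (2 / d * z.im)))
        ≤ Real.exp (-2) := Real.exp_le_exp.2 (by linarith)
    have := exp_two
    linarith
  · intro z h1 h2
    have e : 1 - (p^[n] ∘ θ0) z = p^[n] (1 - θ0 z) := iter_one _ _
    rw [e]
    refine (iter_small ?_ n).trans hn
    rw [hθ0]
    simp only
    have hX : (2 / d) * (a - z.re) ≤ -2 := by
      have : (2 / d) * (a - z.re) ≤ (2 / d) * (-d) :=
        mul_le_mul_of_nonneg_left (by linarith) (by positivity)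
      rwa [mul_neg, div_mul_cancel₀ _ hd.ne'] at this
    have hn1 : ‖-Complex.exp (-((2 / d : ℝ) : ℂ) * (z - a))‖ ≤ 0.136 := by
      rw [norm_neg, Complex.norm_exp, hre]
      exact (Real.exp_le_exp.2 hX).trans exp_two
    rw [norm_sub_rev]
    have := Complex.norm_exp_sub_one_le (hn1.trans (by norm_num))
    linarith

end Pool.Agent.W374.QR.Jump
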