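import Pool.Agent.W785.QR.Stm

set_option autoImplicit false

open Set Pool.Agent.W785.QR Filter Topology

namespace Pool.Agent.W374.QR.Runge

theorem bounds {x : ℝ} (h1 : -1 - 1 / 20 ≤ x) (h2 : x ≤ 1 / 20) :
    (0.34 : ℝ) ≤ Real.exp (-(x + 1)) ∧ Real.exp (-(x + 1)) ≤ 1.06 := by
  constructor
  · have h3 : Real.exp (-(x + 1)) ≥ Real.exp (-1.05) := Real.exp_le_exp.2 (by linarith)
    have h4 : Real.exp (-1.05) = (Real.exp 1)⁻¹ * Real.exp (-0.05) := by
      rw [← Real.exp_neg, ← Real.exp_add]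
      norm_num
    have h5 : (0.95 : ℝ) ≤ Real.exp (-0.05) := by
      have := Real.add_one_le_exp (-0.05 : ℝ)
      linarith
    have h6 : (0.36 : ℝ) ≤ (Real.exp 1)⁻¹ := by
      rw [le_inv_comm₀ (by norm_num) (Real.exp_pos 1)]
      have := Real.exp_one_lt_d9
      norm_num
      linarith
    have h7 : (0.36 : ℝ) * 0.95 ≤ (Real.exp 1)⁻¹ * Real.exp (-0.05) :=
      mul_le_mul h6 h5 (by norm_num) (by positivity)
    rw [← h4] at h7
    linarith
  · have h3 : Real.exp (-(x + 1)) ≤ Real.exp 0.05 := Real.exp_le_exp.2 (by linarith)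
    have h5 : (0.95 : ℝ) ≤ Real.exp (-0.05) := by
      have := Real.add_one_le_exp (-0.05 : ℝ)
      linarith
    have h6 : Real.exp 0.05 = (Real.exp (-0.05))⁻¹ := by
      rw [← Real.exp_neg]
      norm_num
    have h7 : (Real.exp (-0.05))⁻¹ ≤ 1.06 := by
      rw [inv_le_comm₀ (Real.exp_pos _) (by norm_num)]
      refine le_trans ?_ h5
      norm_num
    linarith

theorem ball_bound {z : ℂ} (h1 : -1 - 1 / 20 ≤ z.re) (h2 : z.re ≤ 1 / 20) (h3 : |z.im| ≤ 1 / 20) :
    ‖Complex.exp (-(z + 1)) - 0.7‖ ≤ 0.4 ∧ ‖Complex.exp (-(z + 1))‖ ≤ 2 := by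
  obtain ⟨b1, b2⟩ := bounds h1 h2
  have hre : (-(z + 1)).re = -(z.re + 1) := by simp
  have him : (-(z + 1)).im = -z.im := by simp
  have hn : ‖Complex.exp (-(z + 1))‖ = Real.exp (-(z.re + 1)) := by
    rw [Complex.norm_exp, hre]
  refine ⟨?_, ?_⟩
  · set r := Real.exp (-(z.re + 1)) with hr
    have e1 : (Complex.exp (-(z + 1)) - 0.7).re = r * Real.cos z.im - 0.7 := by
      rw [Complex.sub_re, Complex.exp_re, hre, him, Real.cos_neg, ← hr]
      congr 1
    have e2 : (Complex.exp (-(z + 1)) - 0.7).im = - (r * Real.sin z.im) := by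
      have h07 : (0.7 : ℂ).im = 0 := by norm_num
      rw [Complex.sub_im, Complex.exp_im, hre, him, Real.sin_neg, ← hr, h07]
      ring
    have hc : 1 - z.im ^ 2 / 2 ≤ Real.cos z.im := Real.one_sub_sq_div_two_le_cos
    have hsq : z.im ^ 2 ≤ 1 / 400 := by
      have := sq_le_sq' (by linarith [abs_le.1 h3]) (abs_le.1 h3).2
      linarith
    have hn2 : ‖Complex.exp (-(z + 1)) - 0.7‖ ^ 2 = (r * Real.cos z.im - 0.7) ^ 2
        + (r * Real.sin z.im) ^ 2 := by
      rw [Complex.sq_norm, Complex.normSq_apply, e1, e2]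
      ring
    have hn3 : ‖Complex.exp (-(z + 1)) - 0.7‖ ^ 2 = (r - 0.7) ^ 2 + 1.4 * r * (1 - Real.cos z.im) := by
      rw [hn2]
      have := Real.sin_sq_add_cos_sq z.im
      nlinarith
    have h5 : (r - 0.7) ^ 2 ≤ 0.36 ^ 2 := sq_le_sq' (by linarith) (by linarith)
    have h6 : 1.4 * r * (1 - Real.cos z.im) ≤ 1.4 * 1.06 * (1 / 800) := by
      apply mul_le_mul
      · linarith
      · linarith
      · linarith [Real.cos_le_one z.im]
      · norm_num
    apply le_of_sq_le_sq _ (by norm_num)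
    rw [hn3]
    norm_num at h5 h6 ⊢
    linarith
  · rw [hn]
    linarith

/-- polynomial approximation on the disc of radius `0.4` around `0.7` -/
theorem poly_approx (H : ℂ → ℂ) (hH : DifferentiableOn ℂ H (Metric.closedBall (0.7 : ℂ) 0.6))
    {η : ℝ} (hη : 0 < η) :
    ∃ P : Polynomial ℂ, ∀ s : ℂ, ‖s - 0.7‖ ≤ 0.4 → ‖H s - P.eval s‖ < η := by
  obtain ⟨R, hR⟩ : ∃ R : NNReal, (R : ℝ) = 0.6 := ⟨⟨0.6, by norm_num⟩, rfl⟩
  obtain ⟨r, hr⟩ : ∃ r : NNReal, (r : ℝ) = 0.5 := ⟨⟨0.5, by norm_num⟩, rfl⟩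
  rw [← hR] at hH
  have h1 := DifferentiableOn.hasFPowerSeriesOnBall hH (by
      rw [← NNReal.coe_pos, hR]
      norm_num)
  have h2 := h1.tendstoUniformlyOn (r' := r) (by
    rw [ENNReal.coe_lt_coe, ← NNReal.coe_lt_coe, hR, hr]
    norm_num)
  rw [Metric.tendstoUniformlyOn_iff] at h2
  obtain ⟨n, hn⟩ := (h2 η hη).exists
  refine ⟨∑ k ∈ Finset.range n, Polynomial.C ((cauchyPowerSeries H (0.7 : ℂ) R).coeff k) *
    (Polynomial.X - Polynomial.C 0.7) ^ k, fun s hs => ?_⟩
  have h3 := hn (s - 0.7) (by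
    rw [mem_ball_zero_iff, hr]
    refine lt_of_le_of_lt hs (by norm_num))
  rw [dist_eq_norm] at h3
  have h4 : (0.7 : ℂ) + (s - 0.7) = s := by ring
  rw [h4] at h3
  have h5 : (cauchyPowerSeries H (0.7 : ℂ) R).partialSum n (s - 0.7)
      = Polynomial.eval s (∑ k ∈ Finset.range n,
        Polynomial.C ((cauchyPowerSeries H (0.7 : ℂ) R).coeff k) *
        (Polynomial.X - Polynomial.C 0.7) ^ k) := by
    rw [Polynomial.eval_finsetSum]
    unfold FormalMultilinearSeries.partialSum
    apply Finset.sum_congr rfl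
    intro k _
    rw [FormalMultilinearSeries.apply_eq_pow_smul_coeff]
    simp only [Polynomial.eval_mul, Polynomial.eval_C, Polynomial.eval_pow, Polynomial.eval_sub,
      Polynomial.eval_X, smul_eq_mul]
    rw [mul_comm]
  rw [h5] at h3
  exact h3

theorem main : S_runge := by
  intro F hF η hη
  set H : ℂ → ℂ := fun s => F (-1 - Complex.log s) / s with hHdef
  have hH : DifferentiableOn ℂ H (Metric.closedBall (0.7 : ℂ) 0.6) := by
    intro s hs
    have hre : 0 < s.re := by
      rw [mem_closedBall_iff_norm] at hs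
      have h1 := (Complex.abs_re_le_norm (s - 0.7)).trans hs
      have h2 : (s - 0.7).re = s.re - 0.7 := by
        rw [Complex.sub_re]
        norm_num
      rw [h2] at h1
      have := (abs_le.1 h1).1
      norm_num at this ⊢
      linarith
    have h0 : s ≠ 0 := by
      intro h
      rw [h] at hre
      simp at hre
    have hlog : DifferentiableAt ℂ Complex.log s :=
      (Complex.hasStrictDerivAt_log (Or.inl hre)).hasDerivAt.differentiableAt
    exact (((hF _).comp s ((differentiableAt_const (-1 : ℂ)).sub hlog)).div differentiableAt_id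
      h0).differentiableWithinAt
  obtain ⟨P, hP⟩ := poly_approx H hH (half_pos hη)
  set Q : Polynomial ℂ := Polynomial.X * P with hQ
  refine ⟨Q.natDegree, fun m => Q.coeff m, fun z h1 h2 h3 => ?_⟩
  obtain ⟨b1, b2⟩ := ball_bound h1 h2 h3
  set s := Complex.exp (-(z + 1)) with hs
  have hQs : Q.eval s = ∑ m ∈ Finset.Icc 1 Q.natDegree, Q.coeff m *
      Complex.exp (-(m * (z + 1))) := by
    rw [Polynomial.eval_eq_sum_range, Finset.range_eq_Ico, Finset.sum_eq_sum_Ico_succ_bot
      (Nat.succ_pos _)]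
    have h0 : Q.coeff 0 = 0 := by
      rw [hQ]
      exact Polynomial.coeff_X_mul_zero P
    rw [h0, zero_mul, zero_add]
    have hI : Finset.Ico (0 + 1) (Q.natDegree + 1) = Finset.Icc 1 Q.natDegree := by
      ext i
      simp only [Finset.mem_Ico, Finset.mem_Icc]
      omega
    rw [hI]
    apply Finset.sum_congr rfl
    intro m _
    rw [hs, ← Complex.exp_nat_mul]
    congr 2
    ring
  rw [← hQs]
  have hlog : Complex.log s = -(z + 1) := by
    rw [hs]
    apply Complex.log_exp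
    · have : (-(z + 1)).im = -z.im := by simp
      rw [this]
      have := Real.pi_gt_three
      have := abs_le.1 h3
      linarith
    · have : (-(z + 1)).im = -z.im := by simp
      rw [this]
      have := Real.pi_gt_three
      have := abs_le.1 h3
      linarith
  have hs0 : s ≠ 0 := Complex.exp_ne_zero _
  have hHs : F z = s * H s := by
    rw [hHdef]
    simp only
    rw [hlog, mul_div_cancel₀ _ hs0]
    congr 1
    ring
  have hQe : Q.eval s = s * P.eval s := by
    rw [hQ, Polynomial.eval_mul, Polynomial.eval_X]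
  rw [hHs, hQe, ← mul_sub, norm_mul]
  calc ‖s‖ * ‖H s - P.eval s‖ ≤ 2 * (η / 2) :=
        mul_le_mul b2 (hP s b1).le (norm_nonneg _) (by norm_num)
    _ = η := by ring

end Pool.Agent.W374.QR.Runge
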