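import Pool.Agent.W374.QR.DatBase

set_option autoImplicit false

open Set Pool.Agent.W785.QR MeasureTheory

namespace Pool.Agent.W374.QR.Dat2

open Pool.Agent.W374.QR.Dat

variable (D : ℕ) (q : ℕ → ℝ) (ε : ℝ)

/-- the convolution square of `psi` -/
noncomputable def PP (ξ : E) : ℝ := ∫ η, psi D q ε η * psi D q ε (ξ - η)

theorem PP_eq : PP D q ε = convolution (psi D q ε) (psi D q ε) (ContinuousLinearMap.mul ℝ ℝ) volume := by
  funext ξ
  rfl

theorem PP_int : Integrable (PP D q ε) := by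
  rw [PP_eq]
  exact (psi_int D q ε).integrable_convolution _ (psi_int D q ε)

theorem PP_integral {ε : ℝ} (hε : 0 < ε) : ∫ ξ, PP D q ε ξ = (∑ m ∈ Finset.Icc 1 D, |q m|) ^ 2 := by
  rw [PP_eq, integral_convolution _ (psi_int D q ε) (psi_int D q ε), psi_integral D q hε]
  show (∑ m ∈ Finset.Icc 1 D, |q m|) * (∑ m ∈ Finset.Icc 1 D, |q m|) = _
  ring

theorem PP_nonneg (ξ : E) : 0 ≤ PP D q ε ξ :=
  integral_nonneg (fun η => mul_nonneg (psi_nonneg D q ε η) (psi_nonneg D q ε _))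

theorem pair_int (ξ : E) : Integrable (fun η => psi D q ε η * psi D q ε (ξ - η)) := by
  obtain ⟨B, hB⟩ := psi_bdd D q ε
  apply (psi_int D q ε).mul_bdd (c := B)
  · exact ((psi_meas D q ε).comp (measurable_const.sub measurable_id)).aestronglyMeasurable
  · apply Filter.Eventually.of_forall
    intro η
    rw [Real.norm_eq_abs, abs_of_nonneg (psi_nonneg D q ε _)]
    exact hB _

theorem PP_near {ε : ℝ} (hε1 : ε ≤ 1 / 100) {ξ : E} (h : PP D q ε ξ ≠ 0) :
    |ξ 2| ≤ 2 * ε ∧ ‖ξ‖ ≤ 2 * (D + 1) := by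
  have h1 : ∃ η, psi D q ε η * psi D q ε (ξ - η) ≠ 0 := by
    by_contra hcon
    push Not at hcon
    apply h
    unfold PP
    simp only [hcon, integral_zero]
  obtain ⟨η, hη⟩ := h1
  obtain ⟨a1, _, _, a4⟩ := psi_near D q hε1 (left_ne_zero_of_mul hη)
  obtain ⟨b1, _, _, b4⟩ := psi_near D q hε1 (right_ne_zero_of_mul hη)
  constructor
  · have : ξ 2 = η 2 + (ξ - η) 2 := by rw [PiLp.sub_apply]; ring
    rw [this]
    refine (abs_add_le _ _).trans ?_
    linarith
  · have : ξ = η + (ξ - η) := by abel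
    rw [this]
    refine (norm_add_le _ _).trans ?_
    linarith

theorem heat_le {c : ℝ} (hc : c ∈ Icc (0 : ℝ) 1) {t : ℝ} (ht : t ∈ Icc (-1 : ℝ) 0)
    (A0 : Fin 3 → E → ℂ) (j : Fin 3) (ξ : E) : ‖heat c A0 j t ξ‖ ≤ ‖A0 j ξ‖ := by
  unfold heat
  rw [norm_mul, Complex.norm_real, Real.norm_eq_abs, abs_mul, abs_of_nonneg hc.1,
    abs_of_pos (Real.exp_pos _)]
  have h1 : Real.exp (-(4 * Real.pi ^ 2 * (t + 1) * ‖ξ‖ ^ 2)) ≤ 1 := by
    rw [Real.exp_le_one_iff]
    have : 0 ≤ t + 1 := by linarith [ht.1]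
    have : 0 ≤ 4 * Real.pi ^ 2 * (t + 1) * ‖ξ‖ ^ 2 := by positivity
    linarith
  have h2 : c * Real.exp (-(4 * Real.pi ^ 2 * (t + 1) * ‖ξ‖ ^ 2)) ≤ 1 :=
    mul_le_one₀ hc.2 (Real.exp_pos _).le h1
  exact mul_le_of_le_one_left (norm_nonneg _) h2

theorem conv_le {f g : ℝ → E → ℂ} {t : ℝ} {K L : ℝ} (hK : 0 ≤ K)
    (hf : ∀ ξ, ‖f t ξ‖ ≤ K * psi D q ε ξ) (hg : ∀ ξ, ‖g t ξ‖ ≤ L * psi D q ε ξ) (ξ : E) :
    ‖conv f g t ξ‖ ≤ K * L * PP D q ε ξ := by
  unfold conv PP
  rw [← integral_const_mul]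
  apply norm_integral_le_of_norm_le ((pair_int D q ε ξ).const_mul _)
  apply Filter.Eventually.of_forall
  intro η
  rw [norm_mul]
  calc ‖f t η‖ * ‖g t (ξ - η)‖ ≤ (K * psi D q ε η) * (L * psi D q ε (ξ - η)) :=
        mul_le_mul (hf η) (hg _) (norm_nonneg _) (mul_nonneg hK (psi_nonneg D q ε η))
    _ = K * L * (psi D q ε η * psi D q ε (ξ - η)) := by ring

theorem sy_eq (ξ : E) (j k l : Fin 3) : ‖sy ξ j k l‖ = 2 * Real.pi *
    |(if l = j then ξ k else 0) - ξ j * ξ k * ξ l / ‖ξ‖ ^ 2| := by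
  unfold sy
  have h : (if l = j then ((ξ k : ℝ) : ℂ) else 0) - ((ξ j * ξ k * ξ l / ‖ξ‖ ^ 2 : ℝ) : ℂ)
      = (((if l = j then ξ k else 0) - ξ j * ξ k * ξ l / ‖ξ‖ ^ 2 : ℝ) : ℂ) := by
    rw [Complex.ofReal_sub]
    congr 1
    split_ifs
    · rfl
    · rfl
  rw [h, norm_mul, norm_mul, norm_mul, Complex.norm_I, Complex.norm_real, Complex.norm_real,
    Real.norm_eq_abs, Real.norm_eq_abs, abs_of_pos Real.pi_pos]
  norm_num

theorem sy_le (ξ : E) (j k l : Fin 3) : ‖sy ξ j k l‖ ≤ 4 * Real.pi * |ξ k| := by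
  rw [sy_eq]
  have h1 : |(if l = j then ξ k else 0) - ξ j * ξ k * ξ l / ‖ξ‖ ^ 2| ≤ 2 * |ξ k| := by
    refine (abs_sub _ _).trans ?_
    have h2 : |(if l = j then ξ k else 0)| ≤ |ξ k| := by
      split_ifs
      · exact le_rfl
      · rw [abs_zero]; exact abs_nonneg _
    have h3 : ξ j * ξ k * ξ l / ‖ξ‖ ^ 2 = ξ k * (ξ j * ξ l / ‖ξ‖ ^ 2) := by ring
    have h4 : |ξ j * ξ k * ξ l / ‖ξ‖ ^ 2| ≤ |ξ k| := by
      rw [h3, abs_mul]
      exact mul_le_of_le_one_right (abs_nonneg _) (frac_le ξ j l)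
    linarith
  have h5 := mul_le_mul_of_nonneg_left h1 (by positivity : 0 ≤ 2 * Real.pi)
  linarith

theorem main : S_dat2 := by
  intro D q
  set K0 : ℝ := 4 * Real.pi * 40 * (D + 1) with hK0
  refine ⟨9 * K0 * (∑ m ∈ Finset.Icc 1 D, |q m|) ^ 2 + 1, by positivity, fun ε hε0 hε1 => ?_⟩
  refine ⟨fun ξ => 9 * K0 * ε * PP D q ε ξ, (PP_int D q ε).const_mul _, ?_, ?_⟩
  · rw [integral_const_mul, PP_integral D q hε0]
    nlinarith
  · intro j c hc t ht ξ
    have hterm : ∀ k l : Fin 3, ‖sy ξ j k l * conv (heat c (dat D q ε) k) (heat c (dat D q ε) l) t ξ‖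
        ≤ K0 * ε * PP D q ε ξ := by
      intro k l
      rw [norm_mul]
      by_cases h0 : PP D q ε ξ = 0
      · have h1 : ∀ i : Fin 3, ∀ ξ, ‖heat c (dat D q ε) i t ξ‖ ≤ 2 * psi D q ε ξ :=
          fun i ξ => (heat_le hc ht _ i ξ).trans (dat_le D q ε i ξ)
        have h2 := conv_le D q ε (by norm_num) (h1 k) (h1 l) ξ
        rw [h0, mul_zero] at h2
        have h3 : ‖conv (heat c (dat D q ε) k) (heat c (dat D q ε) l) t ξ‖ = 0 :=
          le_antisymm h2 (norm_nonneg _)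
        rw [h3, h0]
        simp
      · obtain ⟨g1, g2⟩ := PP_near D q hε1 h0
        have hP := PP_nonneg D q ε ξ
        by_cases hkl : k = 2 ∧ l = 2
        · obtain ⟨rfl, rfl⟩ := hkl
          have h1 : ∀ i : Fin 3, ∀ ξ, ‖heat c (dat D q ε) i t ξ‖ ≤ 2 * psi D q ε ξ :=
            fun i ξ => (heat_le hc ht _ i ξ).trans (dat_le D q ε i ξ)
          have h2 := conv_le D q ε (by norm_num) (h1 2) (h1 2) ξ
          have h3 : ‖sy ξ j 2 2‖ ≤ 4 * Real.pi * (2 * ε) :=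
            (sy_le ξ j 2 2).trans (mul_le_mul_of_nonneg_left g1 (by positivity))
          refine (mul_le_mul h3 h2 (norm_nonneg _) (by positivity)).trans ?_
          have e : 4 * Real.pi * (2 * ε) * (2 * 2 * PP D q ε ξ)
              = (4 * Real.pi * ε * PP D q ε ξ) * 8 := by ring
          have e2 : K0 * ε * PP D q ε ξ = (4 * Real.pi * ε * PP D q ε ξ) * (40 * (D + 1)) := by
            rw [hK0]; ring
          rw [e, e2]
          apply mul_le_mul_of_nonneg_left _ (by positivity)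
          have : (0 : ℝ) ≤ D := Nat.cast_nonneg D
          linarith
        · have h1 : ∀ i : Fin 3, ∀ ξ, ‖heat c (dat D q ε) i t ξ‖ ≤ 2 * psi D q ε ξ :=
            fun i ξ => (heat_le hc ht _ i ξ).trans (dat_le D q ε i ξ)
          have h1' : ∀ i : Fin 3, i ≠ 2 → ∀ ξ, ‖heat c (dat D q ε) i t ξ‖ ≤ 10 * ε * psi D q ε ξ :=
            fun i hi ξ => (heat_le hc ht _ i ξ).trans (dat_small D q hε0 hε1 hi ξ)
          have h2 : ‖conv (heat c (dat D q ε) k) (heat c (dat D q ε) l) t ξ‖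
              ≤ 20 * ε * PP D q ε ξ := by
            by_cases hk : k = 2
            · have hl : l ≠ 2 := fun hl => hkl ⟨hk, hl⟩
              have := conv_le D q ε (by norm_num) (h1 k) (h1' l hl) ξ
              refine this.trans (le_of_eq ?_)
              ring
            · have := conv_le D q ε (by positivity) (h1' k hk) (h1 l) ξ
              refine this.trans (le_of_eq ?_)
              ring
          have h3 : ‖sy ξ j k l‖ ≤ 4 * Real.pi * (2 * (D + 1)) :=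
            (sy_le ξ j k l).trans (mul_le_mul_of_nonneg_left ((coord_le ξ k).trans g2)
              (by positivity))
          refine (mul_le_mul h3 h2 (norm_nonneg _) (by positivity)).trans (le_of_eq ?_)
          rw [hK0]
          ring
    unfold nl
    refine (norm_sum_le _ _).trans ?_
    have h1 : ∀ k ∈ (Finset.univ : Finset (Fin 3)), ‖∑ l, sy ξ j k l *
        conv (heat c (dat D q ε) k) (heat c (dat D q ε) l) t ξ‖ ≤ 3 * (K0 * ε * PP D q ε ξ) := by
      intro k _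
      refine (norm_sum_le _ _).trans ((Finset.sum_le_sum (fun l _ => hterm k l)).trans ?_)
      rw [Finset.sum_const, Finset.card_univ, Fintype.card_fin, nsmul_eq_mul]
      norm_num
    refine (Finset.sum_le_sum h1).trans ?_
    rw [Finset.sum_const, Finset.card_univ, Fintype.card_fin, nsmul_eq_mul]
    refine le_of_eq ?_
    push_cast
    ring

end Pool.Agent.W374.QR.Dat2
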