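import Pool.Agent.W785.QR.Stm

set_option autoImplicit false

open Set Pool.Agent.W785.QR MeasureTheory

namespace Pool.Agent.W374.QR.Dat

theorem phi_meas (ε : ℝ) : Measurable (phi ε) := by
  unfold phi
  exact measurable_const.indicator measurableSet_ball

theorem vol_pos {ε : ℝ} (hε : 0 < ε) : 0 < volume.real (Metric.ball (0 : E) ε) :=
  ENNReal.toReal_pos (Metric.measure_ball_pos volume _ hε).ne' measure_ball_lt_top.ne

theorem phi_nonneg (ε : ℝ) (ξ : E) : 0 ≤ phi ε ξ := by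
  unfold phi
  apply indicator_nonneg
  intro _ _
  positivity

theorem phi_le (ε : ℝ) (ξ : E) : phi ε ξ ≤ (volume.real (Metric.ball (0 : E) ε))⁻¹ := by
  unfold phi
  apply indicator_le_self' 
  intro _ _
  positivity

theorem phi_neg (ε : ℝ) (ξ : E) : phi ε (-ξ) = phi ε ξ := by
  unfold phi
  by_cases h : ξ ∈ Metric.ball (0 : E) ε
  · rw [indicator_of_mem h, indicator_of_mem]
    rw [mem_ball_zero_iff] at h ⊢
    rwa [norm_neg]
  · rw [indicator_of_notMem h, indicator_of_notMem]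
    rw [mem_ball_zero_iff] at h ⊢
    rwa [norm_neg]

theorem phi_ne {ε : ℝ} {ξ : E} (h : phi ε ξ ≠ 0) : ‖ξ‖ < ε := by
  unfold phi at h
  have := mem_of_indicator_ne_zero h
  rwa [mem_ball_zero_iff] at this

theorem phi_int (ε : ℝ) : Integrable (phi ε) := by
  unfold phi
  rw [integrable_indicator_iff measurableSet_ball]
  exact integrableOn_const measure_ball_lt_top.ne

theorem phi_integral {ε : ℝ} (hε : 0 < ε) : ∫ ξ, phi ε ξ = 1 := by
  unfold phi
  rw [integral_indicator measurableSet_ball, setIntegral_const, smul_eq_mul]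
  exact mul_inv_cancel₀ (vol_pos hε).ne'

/-- the nonnegative bumps -/
noncomputable def psi (D : ℕ) (q : ℕ → ℝ) (ε : ℝ) (ξ : E) : ℝ :=
  ∑ m ∈ Finset.Icc 1 D, |q m| / 2 * (phi ε (ξ - zeta m) + phi ε (ξ + zeta m))

variable (D : ℕ) (q : ℕ → ℝ) (ε : ℝ)

theorem psi_nonneg (ξ : E) : 0 ≤ psi D q ε ξ := by
  unfold psi
  apply Finset.sum_nonneg
  intro m _
  have := phi_nonneg ε (ξ - zeta m)
  have := phi_nonneg ε (ξ + zeta m)
  positivity

theorem bumps_le (ξ : E) : |bumps D q ε ξ| ≤ psi D q ε ξ := by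
  unfold bumps psi
  refine (Finset.abs_sum_le_sum_abs _ _).trans (Finset.sum_le_sum ?_)
  intro m _
  have h1 := phi_nonneg ε (ξ - zeta m)
  have h2 := phi_nonneg ε (ξ + zeta m)
  rw [abs_mul, abs_div, abs_of_pos (two_pos : (0 : ℝ) < 2), abs_of_nonneg (add_nonneg h1 h2)]

theorem psi_meas : Measurable (psi D q ε) := by
  unfold psi
  apply Finset.measurable_sum
  intro m _
  apply Measurable.const_mul
  exact ((phi_meas ε).comp (measurable_id.sub_const _)).add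
    ((phi_meas ε).comp (measurable_id.add_const _))

theorem bumps_meas : Measurable (bumps D q ε) := by
  unfold bumps
  apply Finset.measurable_sum
  intro m _
  apply Measurable.const_mul
  exact ((phi_meas ε).comp (measurable_id.sub_const _)).add
    ((phi_meas ε).comp (measurable_id.add_const _))

theorem psi_int : Integrable (psi D q ε) := by
  unfold psi
  apply integrable_finsetSum
  intro m _
  apply Integrable.const_mul
  exact ((phi_int ε).comp_sub_right _).add ((phi_int ε).comp_add_right _)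

theorem psi_integral {ε : ℝ} (hε : 0 < ε) : ∫ ξ, psi D q ε ξ = ∑ m ∈ Finset.Icc 1 D, |q m| := by
  unfold psi
  rw [integral_finsetSum]
  · apply Finset.sum_congr rfl
    intro m _
    rw [integral_const_mul, integral_add ((phi_int ε).comp_sub_right _)
      ((phi_int ε).comp_add_right _), integral_sub_right_eq_self (phi ε),
      integral_add_right_eq_self (phi ε), phi_integral hε]
    ring
  · intro m _
    apply Integrable.const_mul
    exact ((phi_int ε).comp_sub_right _).add ((phi_int ε).comp_add_right _)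

theorem psi_bdd : ∃ B : ℝ, ∀ ξ, psi D q ε ξ ≤ B := by
  refine ⟨∑ m ∈ Finset.Icc 1 D, |q m| / 2 * ((volume.real (Metric.ball (0 : E) ε))⁻¹ +
    (volume.real (Metric.ball (0 : E) ε))⁻¹), fun ξ => ?_⟩
  unfold psi
  apply Finset.sum_le_sum
  intro m _
  apply mul_le_mul_of_nonneg_left _ (by positivity)
  exact add_le_add (phi_le _ _) (phi_le _ _)

theorem psi_ne {ξ : E} (h : psi D q ε ξ ≠ 0) :
    ∃ m ∈ Finset.Icc 1 D, ‖ξ - zeta m‖ < ε ∨ ‖ξ + zeta m‖ < ε := by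
  unfold psi at h
  obtain ⟨m, hm, hne⟩ := Finset.exists_ne_zero_of_sum_ne_zero h
  refine ⟨m, hm, ?_⟩
  by_contra hcon
  push Not at hcon
  apply hne
  have h1 : phi ε (ξ - zeta m) = 0 := by
    by_contra h1
    exact absurd (phi_ne h1) (not_lt.2 hcon.1)
  have h2 : phi ε (ξ + zeta m) = 0 := by
    by_contra h2
    exact absurd (phi_ne h2) (not_lt.2 hcon.2)
  rw [h1, h2]
  ring

/-! Geometry. -/

theorem zeta_norm_sq (m : ℕ) : ‖zeta m‖ ^ 2 = m / (4 * Real.pi ^ 2) := by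
  rw [EuclideanSpace.norm_sq_eq]
  unfold zeta
  rw [Fin.sum_univ_three]
  simp only [Matrix.cons_val_zero, Matrix.cons_val_one, Matrix.cons_val]
  rw [Real.norm_eq_abs, sq_abs, div_pow, Real.sq_sqrt (Nat.cast_nonneg m)]
  norm_num
  ring

theorem zeta_norm (m : ℕ) : ‖zeta m‖ = Real.sqrt m / (2 * Real.pi) := by
  have h : (Real.sqrt m / (2 * Real.pi)) ^ 2 = m / (4 * Real.pi ^ 2) := by
    rw [div_pow, Real.sq_sqrt (Nat.cast_nonneg m)]
    ring
  have h2 := zeta_norm_sq m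
  rw [← h] at h2
  exact (sq_eq_sq₀ (norm_nonneg _) (by positivity)).1 h2

theorem coord_le (ξ : E) (j : Fin 3) : |ξ j| ≤ ‖ξ‖ := by
  have := PiLp.norm_apply_le ξ j
  rwa [Real.norm_eq_abs] at this

theorem zeta_norm_ge {m : ℕ} (hm : 1 ≤ m) : (15 / 100 : ℝ) ≤ ‖zeta m‖ := by
  rw [zeta_norm, le_div_iff₀ (by positivity)]
  have h1 : (1 : ℝ) ≤ Real.sqrt m := by
    rw [Real.one_le_sqrt]
    exact_mod_cast hm
  have := Real.pi_lt_d2
  linarith

theorem zeta_norm_le {m D : ℕ} (hm : m ≤ D) : ‖zeta m‖ ≤ D := by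
  rw [zeta_norm, div_le_iff₀ (by positivity)]
  have h1 : Real.sqrt m ≤ D := by
    rw [Real.sqrt_le_left (Nat.cast_nonneg D)]
    have h2 : (m : ℝ) ≤ D := by exact_mod_cast hm
    have h3 : (D : ℝ) ≤ (D : ℝ) ^ 2 := by
      have : D ≤ D ^ 2 := by nlinarith [Nat.zero_le D, sq_nonneg (D : ℤ), Nat.le_self_pow (n := 2) (by norm_num) D]
      exact_mod_cast this
    linarith
  have h4 : (1 : ℝ) ≤ 2 * Real.pi := by
    have := Real.pi_gt_three
    linarith
  have h5 : (0 : ℝ) ≤ D := Nat.cast_nonneg D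
  nlinarith

/-- geometry of the points near `± zeta m` -/
theorem near {ε : ℝ} (hε1 : ε ≤ 1 / 100) {D m : ℕ} (hm : m ∈ Finset.Icc 1 D) {ξ z : E}
    (hz : z = zeta m ∨ z = -zeta m) (h : ‖ξ - z‖ < ε) :
    |ξ 2| < ε ∧ |ξ 1| < ε ∧ (1 / 10 : ℝ) ≤ ‖ξ‖ ∧ ‖ξ‖ ≤ D + 1 := by
  rw [Finset.mem_Icc] at hm
  have hz2 : z 2 = 0 := by
    rcases hz with rfl | rfl
    · rfl
    · show -(zeta m 2) = 0
      unfold zeta
      simp
  have hz1 : z 1 = 0 := by
    rcases hz with rfl | rfl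
    · rfl
    · show -(zeta m 1) = 0
      unfold zeta
      simp
  have hzn : ‖z‖ = ‖zeta m‖ := by
    rcases hz with rfl | rfl
    · rfl
    · rw [norm_neg]
  have h2 : |ξ 2| ≤ ‖ξ - z‖ := by
    have := coord_le (ξ - z) 2
    rwa [PiLp.sub_apply, hz2, sub_zero] at this
  have h1 : |ξ 1| ≤ ‖ξ - z‖ := by
    have := coord_le (ξ - z) 1
    rwa [PiLp.sub_apply, hz1, sub_zero] at this
  refine ⟨lt_of_le_of_lt h2 h, lt_of_le_of_lt h1 h, ?_, ?_⟩
  · have h3 : ‖z‖ ≤ ‖ξ‖ + ‖ξ - z‖ := by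
      have := norm_sub_le ξ (ξ - z)
      rwa [sub_sub_cancel] at this
    have h4 := zeta_norm_ge hm.1
    rw [hzn] at h3
    linarith
  · have h3 : ‖ξ‖ ≤ ‖z‖ + ‖ξ - z‖ := by
      have := norm_add_le z (ξ - z)
      rwa [add_sub_cancel] at this
    have h4 := zeta_norm_le hm.2
    rw [hzn] at h3
    linarith

theorem psi_near {ε : ℝ} (hε1 : ε ≤ 1 / 100) {ξ : E} (h : psi D q ε ξ ≠ 0) :
    |ξ 2| < ε ∧ |ξ 1| < ε ∧ (1 / 10 : ℝ) ≤ ‖ξ‖ ∧ ‖ξ‖ ≤ D + 1 := by
  obtain ⟨m, hm, h1 | h1⟩ := psi_ne D q ε h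
  · exact near hε1 hm (Or.inl rfl) h1
  · refine near hε1 hm (Or.inr rfl) (z := -zeta m) ?_
    rwa [sub_neg_eq_add]

theorem mul_coord_le (ξ : E) (j k : Fin 3) : |ξ j * ξ k| ≤ ‖ξ‖ ^ 2 := by
  rw [abs_mul, sq]
  exact mul_le_mul (coord_le ξ j) (coord_le ξ k) (abs_nonneg _) (norm_nonneg _)

theorem frac_le (ξ : E) (j k : Fin 3) : |ξ j * ξ k / ‖ξ‖ ^ 2| ≤ 1 := by
  rw [abs_div, abs_of_nonneg (sq_nonneg ‖ξ‖)]
  exact div_le_one_of_le₀ (mul_coord_le ξ j k) (sq_nonneg _)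

theorem dat_le (j : Fin 3) (ξ : E) : ‖dat D q ε j ξ‖ ≤ 2 * psi D q ε ξ := by
  unfold dat
  rw [Complex.norm_real, Real.norm_eq_abs, abs_mul]
  have h1 := bumps_le D q ε ξ
  have h2 := frac_le ξ j 2
  have h3 : |(if j = 2 then (1 : ℝ) else 0) - ξ j * ξ 2 / ‖ξ‖ ^ 2| ≤ 2 := by
    refine (abs_sub _ _).trans ?_
    have : |(if j = 2 then (1 : ℝ) else 0)| ≤ 1 := by
      split_ifs <;> simp
    linarith
  rw [mul_comm 2]
  exact mul_le_mul h1 h3 (abs_nonneg _) (psi_nonneg D q ε ξ)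

theorem frac_small {ε : ℝ} {ξ : E} (j : Fin 3) (h1 : |ξ 2| < ε) (h2 : (1 / 10 : ℝ) ≤ ‖ξ‖) :
    |ξ j * ξ 2 / ‖ξ‖ ^ 2| ≤ 10 * ε := by
  have h0 : 0 < ‖ξ‖ := by linarith
  rw [abs_div, abs_of_nonneg (sq_nonneg ‖ξ‖), div_le_iff₀ (by positivity), abs_mul]
  have h3 := coord_le ξ j
  have hε : 0 ≤ ε := (abs_nonneg _).trans h1.le
  calc |ξ j| * |ξ 2| ≤ ‖ξ‖ * ε := mul_le_mul h3 h1.le (abs_nonneg _) (norm_nonneg _)
    _ ≤ ‖ξ‖ * ε * (10 * ‖ξ‖) := le_mul_of_one_le_right (by positivity) (by linarith)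
    _ = 10 * ε * ‖ξ‖ ^ 2 := by ring

theorem dat_small {ε : ℝ} (hε0 : 0 < ε) (hε1 : ε ≤ 1 / 100) {j : Fin 3} (hj : j ≠ 2) (ξ : E) :
    ‖dat D q ε j ξ‖ ≤ 10 * ε * psi D q ε ξ := by
  by_cases h0 : psi D q ε ξ = 0
  · have := dat_le D q ε j ξ
    rw [h0] at this ⊢
    linarith
  · obtain ⟨h1, _, h2, _⟩ := psi_near D q hε1 h0
    unfold dat
    rw [Complex.norm_real, Real.norm_eq_abs, abs_mul, if_neg hj, zero_sub, abs_neg,
      mul_comm (10 * ε)]
    exact mul_le_mul (bumps_le D q ε ξ) (frac_small j h1 h2) (abs_nonneg _) (psi_nonneg D q ε ξ)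

theorem dat_meas (j : Fin 3) : Measurable (dat D q ε j) := by
  unfold dat
  apply Complex.measurable_ofReal.comp
  apply (bumps_meas D q ε).mul
  apply Measurable.sub measurable_const
  apply Measurable.div
  · exact (by fun_prop : Continuous fun ξ : E => ξ j * ξ 2).measurable
  · exact (by fun_prop : Continuous fun ξ : E => ‖ξ‖ ^ 2).measurable

theorem bumps_neg (ξ : E) : bumps D q ε (-ξ) = bumps D q ε ξ := by
  unfold bumps
  apply Finset.sum_congr rfl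
  intro m _
  have h1 : phi ε (-ξ - zeta m) = phi ε (ξ + zeta m) := by
    rw [← phi_neg]
    congr 1
    abel
  have h2 : phi ε (-ξ + zeta m) = phi ε (ξ - zeta m) := by
    rw [← phi_neg]
    congr 1
    abel
  rw [h1, h2, add_comm (phi ε (ξ + zeta m))]

/-- DAT1 -/
theorem t_dat1 : S_dat1 := by
  intro D q
  refine ⟨2 * (∑ m ∈ Finset.Icc 1 D, |q m|) + 1, by positivity, fun ε hε0 hε1 => ?_⟩
  refine ⟨dat_meas D q ε, ?_, ?_, ?_, ?_, ?_⟩
  · obtain ⟨B, hB⟩ := psi_bdd D q ε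
    exact ⟨2 * B, fun j ξ => (dat_le D q ε j ξ).trans (by linarith [hB ξ])⟩
  · refine ⟨D + 1, fun j ξ hξ => ?_⟩
    have h0 : psi D q ε ξ = 0 := by
      by_contra h
      have := (psi_near D q hε1 h).2.2.2
      linarith
    have := dat_le D q ε j ξ
    rw [h0, mul_zero] at this
    exact norm_le_zero_iff.1 this
  · intro j ξ
    unfold dat
    rw [Complex.conj_ofReal, bumps_neg, PiLp.neg_apply, PiLp.neg_apply, norm_neg, neg_mul_neg]
  · intro ξ
    unfold dat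
    rw [Fin.sum_univ_three]
    simp only [show (0 : Fin 3) ≠ 2 by decide, show (1 : Fin 3) ≠ 2 by decide, if_false, if_true]
    rw [← Complex.ofReal_mul, ← Complex.ofReal_mul, ← Complex.ofReal_mul, ← Complex.ofReal_add,
      ← Complex.ofReal_add]
    rw [Complex.ofReal_eq_zero]
    by_cases hξ : ξ = 0
    · subst hξ
      simp
    · have hn : ‖ξ‖ ^ 2 ≠ 0 := by
        have := norm_pos_iff.2 hξ
        positivity
      have hs : ‖ξ‖ ^ 2 = ξ 0 ^ 2 + ξ 1 ^ 2 + ξ 2 ^ 2 := by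
        rw [EuclideanSpace.norm_sq_eq, Fin.sum_univ_three]
        simp only [Real.norm_eq_abs, sq_abs]
      have : ξ 0 * (bumps D q ε ξ * (0 - ξ 0 * ξ 2 / ‖ξ‖ ^ 2)) +
          ξ 1 * (bumps D q ε ξ * (0 - ξ 1 * ξ 2 / ‖ξ‖ ^ 2)) +
          ξ 2 * (bumps D q ε ξ * (1 - ξ 2 * ξ 2 / ‖ξ‖ ^ 2))
          = bumps D q ε ξ * (ξ 2 - ξ 2 * ((ξ 0 ^ 2 + ξ 1 ^ 2 + ξ 2 ^ 2) / ‖ξ‖ ^ 2)) := by ring
      rw [this, ← hs, div_self hn]
      ring
  · intro j
    have h1 : ∫ ξ, ‖dat D q ε j ξ‖ ≤ ∫ ξ, 2 * psi D q ε ξ := by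
      apply integral_mono_of_nonneg (Filter.Eventually.of_forall (fun ξ => norm_nonneg _))
        ((psi_int D q ε).const_mul 2) (Filter.Eventually.of_forall (dat_le D q ε j))
    rw [integral_const_mul, psi_integral D q hε0] at h1
    linarith

end Pool.Agent.W374.QR.Dat
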